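import Pool.Agent.Helper62_GB.Stmt
import Pool.Agent.Helper16_Fine.Part1

/-!
Squad GB, module LBJ: lower bound for the remainder, with a condition on one side only.
-/

namespace Pool.Agent.GB.H92

open MeasureTheory Complex Filter Topology ProbabilityTheory Pool.Agent.H16Iso Pool.Agent.H62T
open Pool.Agent.H62T.H9 Pool.Agent.H16F Pool.Agent.H16F.H10
open scoped ENNReal NNReal

section
variable {n : ℕ} [NeZero n] {u : Fin n → ℂ} {β : Fin n → ℝ}

theorem add_one_ne (hn : 3 ≤ n) (j : Fin n) : j + 1 ≠ j := by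
  intro h
  have h7 : (1 : Fin n) = 0 := by
    have h2 : j + 1 = j + 0 := by rw [h, add_zero]
    exact add_left_cancel h2
  have h8 := congrArg Fin.val h7
  rw [Fin.val_one', Nat.mod_eq_of_lt (by omega)] at h8
  exact one_ne_zero h8

theorem sub_one_ne (hn : 3 ≤ n) (j : Fin n) : j - 1 ≠ j := by
  intro h
  have h1 := add_one_ne hn (j - 1)
  rw [sub_add_cancel] at h1
  exact h1 h.symm

theorem add_two_ne (hn : 3 ≤ n) (k : Fin n) : k + 1 + 1 ≠ k + 1 := add_one_ne hn (k + 1)

/-- one of two angles with small sum has positive cosine -/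
theorem cos_or {a b : ℝ} (ha : 0 ≤ a) (hb : 0 ≤ b) (h : a + b < Real.pi) :
    0 < Real.cos a ∨ 0 < Real.cos b := by
  rcases lt_or_ge a (Real.pi / 2) with h1 | h1
  · exact Or.inl (Real.cos_pos_of_mem_Ioo ⟨by linarith [Real.pi_pos], h1⟩)
  · exact Or.inr (Real.cos_pos_of_mem_Ioo ⟨by linarith [Real.pi_pos], by linarith⟩)

/-- the normals without number `j` span positively -/
theorem pos_span (h : Nm u β) (j : Fin n) (hj : β (j - 1) + β j < Real.pi) (w : ℂ) (hw : w ≠ 0) :
    ∃ i, i ≠ j ∧ ip (u i) w < 0 := by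
  have hn := H10.three_le h
  have hw0 : -w ≠ 0 := neg_ne_zero.mpr hw
  obtain ⟨k, θ, hθ0, hθ1, hk⟩ := H76.cone_cover h (-w) hw0
  have hnw : 0 < ‖-w‖ := norm_pos_iff.mpr hw0
  have key : ∀ (i : Fin n) (a : ℝ), u i = u k * exp (a * I) → 0 < Real.cos (a - θ) →
      ip (u i) w < 0 := by
    intro i a hi hc
    have h2 : ip (u i) (-w) = ‖-w‖ * Real.cos (a - θ) := by
      rw [hk, H76.ip_smul_right, hi, H76.ip_rot _ (h.unit k)]
      rw [← hk]
    have h3 : ip (u i) (-w) = - ip (u i) w := by simp [ip]; ring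
    rw [h3] at h2
    have := mul_pos hnw hc
    linarith
  have hk0 : u k = u k * exp (((0 : ℝ) : ℂ) * I) := by simp
  have hk1 : u (k + 1) = u k * exp ((β k : ℝ) * I) := h.step k
  have hk2 : u (k + 1 + 1) = u k * exp (((β k + β (k + 1) : ℝ) : ℂ) * I) := by
    rw [h.step (k + 1), h.step k, mul_assoc, ← Complex.exp_add]
    push_cast
    ring_nf
  have hkm : u (k - 1) = u k * exp (((-β (k - 1) : ℝ) : ℂ) * I) := by
    have := h.step (k - 1)
    rw [sub_add_cancel] at this
    rw [this, mul_assoc, ← Complex.exp_add]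
    push_cast
    simp
  have hbk := h.pos k
  have hbk1 := h.pos (k + 1)
  have hbkm := h.pos (k - 1)
  have hbkl := h.lt k
  have e0 : Real.cos (0 - θ) = Real.cos θ := by rw [zero_sub, Real.cos_neg]
  by_cases h1 : k = j
  · rw [← h1] at hj ⊢
    have e1 : Real.cos (-β (k - 1) - θ) = Real.cos (β (k - 1) + θ) := by
      rw [← Real.cos_neg]
      congr 1
      ring
    rcases cos_or (a := β (k - 1) + θ) (b := β k - θ) (by linarith) (by linarith) (by linarith)
      with h2 | h2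
    · exact ⟨k - 1, sub_one_ne hn k, key _ _ hkm (by rw [e1]; exact h2)⟩
    · exact ⟨k + 1, add_one_ne hn k, key _ _ hk1 h2⟩
  · by_cases h2 : k + 1 = j
    · rw [← h2, add_sub_cancel_right] at hj
      rcases cos_or (a := θ) (b := β k + β (k + 1) - θ) hθ0 (by linarith) (by linarith)
        with h3 | h3
      · exact ⟨k, h1, key _ _ hk0 (by rw [e0]; exact h3)⟩
      · exact ⟨k + 1 + 1, by rw [← h2]; exact add_two_ne hn k, key _ _ hk2 h3⟩
    · rcases cos_or (a := θ) (b := β k - θ) hθ0 (by linarith) (by linarith) with h3 | h3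
      · exact ⟨k, h1, key _ _ hk0 (by rw [e0]; exact h3)⟩
      · exact ⟨k + 1, h2, key _ _ hk1 h3⟩

/-- quantitative version -/
theorem pos_span_quant (h : Nm u β) (j : Fin n) (hj : β (j - 1) + β j < Real.pi) :
    ∃ κ : ℝ, 0 < κ ∧ ∀ x : ℂ, ∃ i, i ≠ j ∧ ip (u i) x ≤ -(κ * ‖x‖) := by
  have hn := H10.three_le h
  have hne : (Finset.univ.erase j : Finset (Fin n)).Nonempty :=
    ⟨j + 1, Finset.mem_erase.mpr ⟨add_one_ne hn j, Finset.mem_univ _⟩⟩
  set F : ℂ → ℝ := fun w => (Finset.univ.erase j).inf' hne fun i => ip (u i) w with hF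
  have hFc : Continuous F := by
    apply Continuous.finset_inf'_apply
    intro i _
    unfold ip
    fun_prop
  have hFneg : ∀ w, w ≠ 0 → F w < 0 := by
    intro w hw
    obtain ⟨i, hi, h1⟩ := pos_span h j hj w hw
    exact (Finset.inf'_le _ (Finset.mem_erase.mpr ⟨hi, Finset.mem_univ _⟩)).trans_lt h1
  obtain ⟨w0, hw0, hmax⟩ := (isCompact_sphere (0 : ℂ) 1).exists_isMaxOn
    ⟨1, by simp⟩ hFc.continuousOn
  have hw0' : w0 ≠ 0 := by
    intro h0
    rw [h0] at hw0
    simp at hw0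
  refine ⟨-F w0, by linarith [hFneg w0 hw0'], fun x => ?_⟩
  by_cases hx : x = 0
  · refine ⟨j + 1, add_one_ne hn j, ?_⟩
    rw [hx]
    simp [ip]
  · have hxn : 0 < ‖x‖ := norm_pos_iff.mpr hx
    set w : ℂ := ((‖x‖⁻¹ : ℝ) : ℂ) * x with hw
    have hwn : w ∈ Metric.sphere (0 : ℂ) 1 := by
      rw [mem_sphere_zero_iff_norm, hw, norm_mul, Complex.norm_real, Real.norm_eq_abs,
        abs_of_pos (inv_pos.mpr hxn), inv_mul_cancel₀ hxn.ne']
    have h1 : F w ≤ F w0 := hmax hwn
    obtain ⟨i, hi, h2⟩ := Finset.exists_mem_eq_inf' hne fun i => ip (u i) w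
    refine ⟨i, (Finset.mem_erase.mp hi).1, ?_⟩
    have h3 : ip (u i) w = ‖x‖⁻¹ * ip (u i) x := by rw [hw, H76.ip_smul_right]
    have h4 : ip (u i) w ≤ F w0 := by
      rw [← h2]
      exact h1
    rw [h3, inv_mul_le_iff₀ hxn] at h4
    linarith

/-- weights without number `j` -/
theorem weights_j (h : Nm u β) (j : Fin n) (hj : β (j - 1) + β j < Real.pi) :
    ∃ c : Fin n → ℝ, (∀ i, 0 ≤ c i) ∧ c j = 0 ∧ ∑ i, c i = 1 ∧ ∑ i, (c i : ℂ) * u i = 0 := by
  classical
  have hn := H10.three_le h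
  set K : Set ℂ := (fun c : Fin n → ℝ => ∑ i, (c i : ℂ) * u i) ''
    (stdSimplex ℝ (Fin n) ∩ {c | c j = 0}) with hK
  by_cases h0 : (0 : ℂ) ∈ K
  · obtain ⟨c, ⟨⟨hc0, hc1⟩, hcT⟩, hc⟩ := h0
    exact ⟨c, hc0, hcT, hc1, hc⟩
  exfalso
  let L : (Fin n → ℝ) →ₗ[ℝ] ℂ :=
    { toFun := fun c => ∑ i, (c i : ℂ) * u i
      map_add' := by
        intro a b
        simp [add_mul, Finset.sum_add_distrib]
      map_smul' := by
        intro r a
        simp [Finset.mul_sum, mul_assoc] }
  have hLc : Continuous L := by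
    change Continuous fun c : Fin n → ℝ => ∑ i, (c i : ℂ) * u i
    fun_prop
  have hconv : Convex ℝ K := by
    have h1 : Convex ℝ (stdSimplex ℝ (Fin n) ∩ {c : Fin n → ℝ | c j = 0}) := by
      refine (convex_stdSimplex ℝ (Fin n)).inter ?_
      intro a ha b hb r s _ _ _
      have ha' : a j = 0 := ha
      have hb' : b j = 0 := hb
      change (r • a + s • b) j = 0
      simp [ha', hb']
    exact h1.linear_image L
  have hcomp : IsCompact K := by
    have h1 : IsClosed {c : Fin n → ℝ | c j = 0} :=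
      isClosed_eq (continuous_apply j) continuous_const
    exact ((isCompact_stdSimplex ℝ (Fin n)).inter_right h1).image hLc
  obtain ⟨f, s, hf0, hfs⟩ := geometric_hahn_banach_point_closed hconv hcomp.isClosed h0
  rw [map_zero] at hf0
  set w : ℂ := ⟨f 1, f I⟩ with hw
  have hfw : ∀ z : ℂ, f z = ip z w := by
    intro z
    have hz : z = z.re • (1 : ℂ) + z.im • I := by
      apply Complex.ext <;> simp
    conv_lhs => rw [hz]
    rw [map_add, map_smul, map_smul]
    simp [ip, hw]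
  have hpos : ∀ i, i ≠ j → 0 < ip (u i) w := by
    intro i hi
    rw [← hfw]
    refine hf0.trans (hfs _ ⟨Pi.single i 1, ⟨single_mem_stdSimplex ℝ i, ?_⟩, ?_⟩)
    · exact Pi.single_eq_of_ne (fun h => hi h.symm) _
    · simp only
      rw [Finset.sum_eq_single i]
      · simp
      · intro j _ hj
        simp [Pi.single_eq_of_ne hj]
      · simp
  have hw0 : w ≠ 0 := by
    intro h1
    have h2 := hpos (j + 1) (add_one_ne hn j)
    rw [h1] at h2
    simp [ip] at h2
  obtain ⟨i, hi, h1⟩ := pos_span h j hj w hw0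
  have h2 := hpos i hi
  linarith

/-- DETL with a condition on one side only -/
theorem detl_j {H : Fin n → ℝ} (hP : CP u H β) (j : Fin n) (hj : β (j - 1) + β j < Real.pi) :
    ∃ (W : Finset (Fin n → ℝ)) (C : ℝ), 0 < C ∧
      (∀ c ∈ W, (∀ i, 0 ≤ c i) ∧ ∑ i, c i = 1 ∧ ∑ i, (c i : ℂ) * u i = 0) ∧
      ∀ h : ℂ → ℝ, Sublin h →
        cf (β (j - 1)) (β j) * max (len β (fun i => h (u i)) j - len β H j) 0 ^ 2
            - C * (1 + ∑ i, |h (u i)|) ^ 2 * ind (∃ c ∈ W, ∑ i, c i * H i ≤ ∑ i, c i * h (u i))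
          ≤ Vol u H (fun i => h (u i)) - qa β (fun i => H i - h (u i)) := by
  have hN : Nm u β := hP.toNm
  have h3 : 3 ≤ n := H10.three_le hN
  obtain ⟨κ, hκ, hspan⟩ := pos_span_quant hN j hj
  obtain ⟨c, hc0, hcj, hc1, hcu⟩ := weights_j hN j hj
  set C : ℝ := κ⁻¹ with hC'
  have hC : 0 < C := inv_pos.mpr hκ
  have hbad1 : ∀ (b : Fin n → ℝ) (x : ℂ), TT u b x ⊆ {j} → ‖x‖ ≤ C * ∑ i, |b i| := by
    intro b x hx
    obtain ⟨i, hi, h1⟩ := hspan x
    have h2 : b i < ip (u i) x := by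
      by_contra hcon
      exact hi (hx (not_lt.mp hcon))
    have h4 : |b i| ≤ ∑ i, |b i| := Finset.single_le_sum (fun i _ => abs_nonneg (b i))
      (Finset.mem_univ i)
    have h5 := neg_abs_le (b i)
    rw [hC', le_inv_mul_iff₀ hκ]
    linarith
  have hbad2 : ∀ (H h : Fin n → ℝ) (x : ℂ), TT u (fun i => H i - h i) x ⊆ {j} →
      ∑ i, c i * H i ≤ ∑ i, c i * h i := by
    intro H h x hx
    have h5 : ∀ i, c i * (H i - h i) ≤ c i * ip (u i) x := by
      intro i
      by_cases hi : i = j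
      · rw [hi, hcj, zero_mul, zero_mul]
      · refine mul_le_mul_of_nonneg_left ?_ (hc0 i)
        by_contra hcon
        exact hi (hx (show ip (u i) x ≤ H i - h i from (not_le.mp hcon).le))
    have h6 := Finset.sum_le_sum fun i (_ : i ∈ Finset.univ) => h5 i
    rw [ip_sum u c x hcu] at h6
    have h7 : ∑ i, c i * (H i - h i) = ∑ i, c i * H i - ∑ i, c i * h i := by
      rw [← Finset.sum_sub_distrib]
      refine Finset.sum_congr rfl fun i _ => by ring
    rw [h7] at h6
    linarith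
  refine ⟨{c}, 1 * (Real.pi * (C * (1 + ∑ i, |H i|)) ^ 2), ?_, ?_, ?_⟩
  · have h1 : 0 ≤ ∑ i, |H i| := Finset.sum_nonneg fun i _ => abs_nonneg _
    have h4 : 0 < C * (1 + ∑ i, |H i|) := mul_pos hC (by linarith)
    have hpi := Real.pi_pos
    positivity
  · intro d hd
    rw [Finset.mem_singleton] at hd
    rw [hd]
    exact ⟨hc0, hc1, hcu⟩
  · intro h hh
    set b : Fin n → ℝ := fun i => H i - h (u i) with hb
    have hVol : Vol u H (fun i => h (u i)) = Ar u b := rfl
    obtain ⟨i1, e1⟩ := H61.run n u β hN b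
    obtain ⟨i2, e2⟩ := H61.sing n u β hN b j hj
    have e2' : ∫ x, sg j (TT u b x) = cf (β (j - 1)) (β j) *
        max (len β (fun i => h (u i)) j - len β H j) 0 ^ 2 := by
      rw [e2, hb, H10.len_sub, neg_sub]
    have hb0 : 0 ≤ ∑ i, |b i| := Finset.sum_nonneg fun i _ => abs_nonneg _
    set R : ℝ := C * ∑ i, |b i| with hR
    have hR0 : 0 ≤ R := by positivity
    have hz : ∀ x, R < ‖x‖ → ind (TT u b x ⊆ {j}) = 0 := by
      intro x hx
      exact H10.ind_neg fun hcon => absurd (hbad1 b x hcon) (not_le.mpr hx)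
    have hle : ∀ x, |ind (TT u b x ⊆ {j})| ≤ 1 := by
      intro x
      rw [abs_of_nonneg (H10.ind_nonneg _)]
      exact H10.ind_le_one _
    have i3 : Integrable fun x => ind (TT u b x ⊆ {j}) := by
      have h4 : (fun x => ind (TT u b x ⊆ {j})) =
          Set.indicator ({x | TT u b x ⊆ {j}} ∩ Metric.closedBall 0 R) fun _ => (1 : ℝ) := by
        funext x
        by_cases hx1 : TT u b x ⊆ {j}
        · have hx2 : x ∈ Metric.closedBall (0 : ℂ) R := by
            rw [mem_closedBall_zero_iff]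
            exact hbad1 b x hx1
          rw [Set.indicator_of_mem (show x ∈ {x | TT u b x ⊆ {j}} ∩ Metric.closedBall 0 R from
              ⟨hx1, hx2⟩), H10.ind_pos hx1]
        · rw [Set.indicator_of_notMem (fun hx => hx1 hx.1), H10.ind_neg hx1]
      rw [h4]
      refine (integrable_indicator_iff ((measurableSet_TT_subset u b j).inter
        measurableSet_closedBall)).2 ?_
      refine integrableOn_const (ne_of_lt ?_)
      refine (measure_mono Set.inter_subset_right).trans_lt ?_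
      rw [Complex.volume_closedBall]
      exact ENNReal.mul_lt_top (by simp) (by simp)
    have e3 : (∫ x, sg j (TT u b x)) - (∫ x, ind (TT u b x ⊆ {j})) ≤ ∫ x, cm (TT u b x) := by
      rw [← integral_sub i2 i3]
      exact integral_mono (i2.sub i3) i1 fun x => (H61.comb n (TT u b x) h3).2.2.1 j
    have e4 : ∫ x, ind (TT u b x ⊆ {j}) ≤ 1 * (Real.pi * (C * (1 + ∑ i, |H i|)) ^ 2)
        * (1 + ∑ i, |h (u i)|) ^ 2 *
          ind (∃ d ∈ ({c} : Finset (Fin n → ℝ)), ∑ i, d i * H i ≤ ∑ i, d i * h (u i)) := by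
      by_cases hbad : ∃ d ∈ ({c} : Finset (Fin n → ℝ)), ∑ i, d i * H i ≤ ∑ i, d i * h (u i)
      · rw [H10.ind_pos hbad, mul_one]
        have e7 := (le_abs_self _).trans (abs_integral_le (f := fun x => ind (TT u b x ⊆ {j}))
          (K := 1) (R := R) hR0 hle hz)
        refine e7.trans ?_
        have e8 : ∑ i, |b i| ≤ (1 + ∑ i, |H i|) * (1 + ∑ i, |h (u i)|) :=
          sum_abs_le H fun i => h (u i)
        have e9 : R ^ 2 ≤ (C * ((1 + ∑ i, |H i|) * (1 + ∑ i, |h (u i)|))) ^ 2 := by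
          rw [hR]
          gcongr
        calc (1 : ℝ) * (Real.pi * R ^ 2)
            ≤ 1 * (Real.pi * (C * ((1 + ∑ i, |H i|) * (1 + ∑ i, |h (u i)|))) ^ 2) := by gcongr
          _ = _ := by ring
      · rw [H10.ind_neg hbad, mul_zero]
        have e10 : ∀ x, ind (TT u b x ⊆ {j}) = 0 := by
          intro x
          refine H10.ind_neg fun hx => hbad ⟨c, Finset.mem_singleton_self c, ?_⟩
          exact hbad2 H (fun i => h (u i)) x hx
        simp only [e10, integral_zero, le_refl]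
    rw [hVol, e1, ← e2']
    have e5 := e3.trans' (sub_le_sub_left e4 _)
    linarith

end

/-- module LBJ -/
theorem lbj : LbjStatement := by
  intro n _ u H β hP r hr0 hr j hj1 hj2 ε h0 h1
  have hN : Nm u β := hP.toNm
  have hHeat : HeatStatement := H62T.heat_all
  have hM : MomStatement := p1_mom
  have hL : Law2Statement := H13.law2
  obtain ⟨W, C, hC, hW, hmain⟩ := detl_j hP j (by linarith)
  have hr' : ∃ x : ℂ, ∀ i, r ≤ H i - ip (u i) x := by
    refine ⟨0, fun i => ?_⟩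
    have : ip (u i) 0 = 0 := by simp [ip]
    rw [this, sub_zero]
    exact hr i
  have hA2 := tail_weights (H := H) H13.ut hN.unit hW hr0.le le_rfl hr'
  obtain ⟨C', hC'0, hC'⟩ := tail_int (am_size hM u C) (fun ω => by positivity) hA2 ε h0 h1
  refine ⟨C', fun t ht ht1 => ?_⟩
  obtain ⟨iV, iQ, hR⟩ := rem_eq hHeat hM hL H61.alg H61.run H61.zero H69.vert hP ht
  obtain ⟨am, hsd⟩ := int_side hM hL hN H j ht
  have hs0 : 0 ≤ Real.sqrt t := Real.sqrt_nonneg t
  have hs1 : Real.sqrt t ≤ 1 := Real.sqrt_le_one.2 ht1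
  set F : Sp → ℝ := fun ω => Vol u H (fun i => Real.sqrt t * hs ω (u i))
      - qa β (fun i => H i - Real.sqrt t * hs ω (u i)) - cf (β (j - 1)) (β j) *
        max (len β (fun i => Real.sqrt t * hs ω (u i)) j - len β H j) 0 ^ 2 with hF
  have iF : Integrable F PP := (iV.sub iQ).sub am.integrable
  have e1 : Rem u H β t - t * Phi (β (j - 1)) (β j) (len β H j / Real.sqrt t) = ∫ ω, F ω ∂PP := by
    have iVQ : Integrable (fun ω => Vol u H (fun i => Real.sqrt t * hs ω (u i))
      - qa β (fun i => H i - Real.sqrt t * hs ω (u i))) PP := iV.sub iQ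
    rw [hR, ← hsd, ← integral_sub iVQ am.integrable]
  have e2 := hC' t ht ht1 (fun ω => min (F ω) 0) (by
    filter_upwards [hL.2.2.1] with ω hω
    have h2 := hmain _ (sublin_smul hω hs0)
    have h3 : C * (1 + ∑ i, |Real.sqrt t * hs ω (u i)|) ^ 2 *
        ind (∃ c ∈ W, ∑ i, c i * H i ≤ ∑ i, c i * (Real.sqrt t * hs ω (u i))) ≤
        C * (1 + ∑ i, |hs ω (u i)|) ^ 2 *
        ind (∃ c ∈ W, ∑ i, c i * H i ≤ ∑ i, c i * (Real.sqrt t * hs ω (u i))) :=
      mul_le_mul_of_nonneg_right (size_le u hC.le hs0 hs1 ω) (H10.ind_nonneg _)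
    have h4 : -(C * (1 + ∑ i, |hs ω (u i)|) ^ 2 *
        ind (∃ c ∈ W, ∑ i, c i * H i ≤ ∑ i, c i * (Real.sqrt t * hs ω (u i)))) ≤ F ω := by
      simp only [hF]
      linarith
    have h5 : 0 ≤ C * (1 + ∑ i, |hs ω (u i)|) ^ 2 *
        ind (∃ c ∈ W, ∑ i, c i * H i ≤ ∑ i, c i * (Real.sqrt t * hs ω (u i))) :=
      mul_nonneg (by positivity) (H10.ind_nonneg _)
    rw [abs_of_nonpos (min_le_right _ _)]
    have h6 := le_min h4 (neg_nonpos.2 h5)
    have h7 : -min (F ω) 0 ≤ C * (1 + ∑ i, |hs ω (u i)|) ^ 2 *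
        ind (∃ c ∈ W, ∑ i, c i * H i ≤ ∑ i, c i * (Real.sqrt t * hs ω (u i))) := by
      linarith
    exact h7)
  have e3 : ∫ ω, min (F ω) 0 ∂PP ≤ ∫ ω, F ω ∂PP := by
    refine integral_mono ?_ iF fun ω => min_le_left _ _
    exact iF.inf (integrable_zero _ _ _)
  have e4 := (neg_le_of_abs_le e2)
  linarith

end Pool.Agent.GB.H92
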