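import Pool.Agent.Helper92_GB.Lbj

/-!
Squad GB, module UPP: upper bounds for the remainder, uniform in the polygon.
-/

namespace Pool.Agent.GB.H92

open MeasureTheory Complex Filter Topology ProbabilityTheory Pool.Agent.H16Iso Pool.Agent.H62T
open Pool.Agent.H62T.H9 Pool.Agent.H16F Pool.Agent.H16F.H10
open scoped ENNReal NNReal

/-- bound for a nonnegative sublinear function -/
theorem sub_bound {k : ℂ → ℝ} (hk : Sublin k) (h0 : ∀ u, 0 ≤ k u) (v : ℂ) :
    k v ≤ (k 1 + k (-1) + k I + k (-I)) * ‖v‖ := by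
  have h1 : ∀ (x : ℝ) (e : ℂ), |x| ≤ ‖v‖ → k ((x : ℂ) * e) ≤ (k e + k (-e)) * ‖v‖ := by
    intro x e hx
    rcases le_total 0 x with h | h
    · rw [hk.2 x e h]
      have h2 : x ≤ ‖v‖ := (le_abs_self x).trans hx
      have h3 := mul_le_mul_of_nonneg_right h2 (h0 e)
      have h4 := mul_nonneg (norm_nonneg v) (h0 (-e))
      linarith
    · have e1 : (x : ℂ) * e = ((-x : ℝ) : ℂ) * (-e) := by push_cast; ring
      rw [e1, hk.2 (-x) (-e) (by linarith)]
      have h2 : -x ≤ ‖v‖ := (neg_le_abs x).trans hx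
      have h3 := mul_le_mul_of_nonneg_right h2 (h0 (-e))
      have h4 := mul_nonneg (norm_nonneg v) (h0 e)
      linarith
  have e2 : ((v.re : ℂ) * 1 + (v.im : ℂ) * I) = v := by rw [mul_one]; exact Complex.re_add_im v
  have h5 := hk.1 ((v.re : ℂ) * 1) ((v.im : ℂ) * I)
  rw [e2] at h5
  have h6 := h1 v.re 1 (Complex.abs_re_le_norm v)
  have h7 := h1 v.im I (Complex.abs_im_le_norm v)
  linarith

/-- the bounds of module UPB for fixed normals -/
def Ub (C : ℝ) {n : ℕ} [NeZero n] (u : Fin n → ℂ) (β : Fin n → ℝ) : Prop :=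
  ∀ h k : ℂ → ℝ, Sublin h → Sublin k → ∀ r ρ M : ℝ, 0 < r →
      (∀ v : ℂ, ‖v‖ = 1 → r ≤ h v ∧ h v ≤ ρ ∧ |k v| ≤ M) →
      ∑ i, len β (fun j => h (u j)) i ≤ C * ρ ∧
      Ar u (fun i => h (u i) - k (u i)) - qa β (fun i => h (u i) - k (u i)) ≤ C * (ρ + M) ^ 2 ∧
      ∀ D : ℝ, 0 ≤ D → (∀ i, ∃ x, Er h k x ∧ h (u i) - k (u i) - D ≤ ip (u i) x) →
        Ar u (fun i => h (u i) - k (u i)) - qa β (fun i => h (u i) - k (u i)) ≤ C * M * D

/-- a sublinear function is homogeneous -/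
theorem sub_norm {h : ℂ → ℝ} (hh : Sublin h) {r : ℝ} (hb : ∀ v, ‖v‖ = 1 → r ≤ h v) (w : ℂ) :
    r * ‖w‖ ≤ h w := by
  by_cases hw : w = 0
  · have h1 := hh.2 0 0 le_rfl
    rw [hw]
    simp only [ofReal_zero, zero_mul] at h1
    rw [h1, norm_zero, mul_zero]
  · have hn : 0 < ‖w‖ := norm_pos_iff.mpr hw
    have h1 : ‖(((‖w‖⁻¹ : ℝ) : ℂ) * w)‖ = 1 := by
      rw [norm_mul, Complex.norm_real, Real.norm_eq_abs, abs_of_pos (inv_pos.mpr hn),
        inv_mul_cancel₀ hn.ne']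
    have h2 := hb _ h1
    rw [hh.2 _ _ (inv_nonneg.mpr hn.le), le_inv_mul_iff₀ hn] at h2
    linarith

/-- pointwise bound -/
theorem point1 {n : ℕ} [NeZero n] {u : Fin n → ℂ} {β : Fin n → ℝ} (hu : ∀ i, ‖u i‖ = 1) {C : ℝ}
    (hC : 0 < C) (hU : Ub C u β) {h k : ℂ → ℝ} (hh : Sublin h) (hk : Sublin k)
    (hk0 : ∀ u, 0 ≤ k u) {r ρ M : ℝ} (hr : 0 < r) (hb : ∀ v, ‖v‖ = 1 → r ≤ h v ∧ h v ≤ ρ)
    (hM : ∀ v, k v ≤ M * ‖v‖) (hsup : ∀ v, ∃ p, ip v p = h v ∧ ∀ w, ip w p ≤ h w) :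
    Ar u (fun i => h (u i) - k (u i)) - qa β (fun i => h (u i) - k (u i))
      ≤ C * (ρ / r + 1) ^ 2 * M ^ 2 := by
  have hM0 : 0 ≤ M := by
    have h1 := hM 1
    have h2 := hk0 1
    rw [norm_one, mul_one] at h1
    linarith
  have hρ : r ≤ ρ := (hb 1 (by simp)).1.trans (hb 1 (by simp)).2
  have hρ0 : 0 < ρ := hr.trans_le hρ
  obtain ⟨-, h2, h3⟩ := hU h k hh hk r ρ M hr fun v hv => by
    refine ⟨(hb v hv).1, (hb v hv).2, ?_⟩
    rw [abs_of_nonneg (hk0 v)]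
    have := hM v
    rwa [hv, mul_one] at this
  have hq0 : 0 ≤ ρ / r := by positivity
  rcases le_or_gt M r with hMr | hMr
  · have h4 := h3 (M * (ρ / r)) (by positivity) (fun i => by
      obtain ⟨p, hp1, hp2⟩ := hsup (u i)
      refine ⟨((1 - M / r : ℝ) : ℂ) * p, fun w => ?_, ?_⟩
      · rw [H76.ip_smul_right]
        have h5 : 0 ≤ 1 - M / r := by
          rw [sub_nonneg, div_le_one hr]
          exact hMr
        have h6 := mul_le_mul_of_nonneg_left (hp2 w) h5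
        have h7 : M * ‖w‖ ≤ M / r * h w := by
          have h8 := mul_le_mul_of_nonneg_left (sub_norm hh (fun v hv => (hb v hv).1) w)
            (div_nonneg hM0 hr.le)
          have h9 : M / r * (r * ‖w‖) = M * ‖w‖ := by field_simp
          linarith
        have h10 := hM w
        linarith
      · rw [H76.ip_smul_right, hp1]
        have h5 : M / r * h (u i) ≤ M * (ρ / r) := by
          have h8 := mul_le_mul_of_nonneg_left (hb _ (hu i)).2 (div_nonneg hM0 hr.le)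
          have h9 : M / r * ρ = M * (ρ / r) := by ring
          linarith
        have h6 := hk0 (u i)
        linarith)
    refine h4.trans ?_
    have h5 : ρ / r ≤ (ρ / r + 1) ^ 2 := by nlinarith
    have h6 := mul_le_mul_of_nonneg_left h5 (show 0 ≤ C * M ^ 2 by positivity)
    linarith
  · refine h2.trans ?_
    have h5 : ρ + M ≤ (ρ / r + 1) * M := by
      have h6 : ρ ≤ ρ / r * M := by
        have h7 := mul_le_mul_of_nonneg_left hMr.le hq0
        have h8 : ρ / r * r = ρ := by field_simp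
        linarith
      linarith
    have h6 : (ρ + M) ^ 2 ≤ ((ρ / r + 1) * M) ^ 2 := by
      have : 0 ≤ ρ + M := by linarith
      gcongr
    have h7 := mul_le_mul_of_nonneg_left h6 hC.le
    linarith [mul_pow (ρ / r + 1) M 2]

theorem ub_of (hU : UpbStatement) {B : ℝ} (hB : B < Real.pi) : ∃ C : ℝ, 0 < C ∧ ∀ (n : ℕ) [NeZero n]
    (u : Fin n → ℂ) (β : Fin n → ℝ), Nm u β → (∀ i, β i ≤ B) → Ub C u β := by
  obtain ⟨C, hC, h⟩ := hU B hB
  exact ⟨C, hC, fun n _ u β hN hb => h n u β hN hb⟩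

/-- the size of the loop -/
noncomputable def MM (ω : Sp) : ℝ := hs ω 1 + hs ω (-1) + hs ω I + hs ω (-I)

theorem am_MM : AM MM :=
  (((AM.hs p1_mom 1).add (AM.hs p1_mom (-1))).add (AM.hs p1_mom I)).add (AM.hs p1_mom (-I))

theorem MM_nonneg (ω : Sp) : 0 ≤ MM ω := by
  unfold MM
  have h := p1_mom.2.1
  linarith [h 1 ω, h (-1) ω, h I ω, h (-I) ω]

/-- the integrand -/
noncomputable def GG {h : ℂ → ℝ} (a : Cir h) (t : ℝ) (ω : Sp) : ℝ :=
  Vol a.u a.H (fun i => Real.sqrt t * hs ω (a.u i))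
    - qa a.β (fun i => a.H i - Real.sqrt t * hs ω (a.u i))

theorem GG_int {h : ℂ → ℝ} (a : Cir h) {t : ℝ} (ht : 0 < t) :
    Integrable (GG a t) PP ∧ a.R t = ∫ ω, GG a t ω ∂PP := by
  obtain ⟨iV, iQ, hR⟩ := rem_eq H62T.heat_all p1_mom H13.law2 H61.alg H61.run H61.zero H69.vert
    a.cp ht
  exact ⟨iV.sub iQ, hR⟩

theorem GG_eq {h : ℂ → ℝ} (a : Cir h) (t : ℝ) (ω : Sp) : GG a t ω =
    Ar a.u (fun i => h (a.u i) - (fun v => Real.sqrt t * hs ω v) (a.u i))
      - qa a.β (fun i => h (a.u i) - (fun v => Real.sqrt t * hs ω v) (a.u i)) := rfl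

theorem GG_le {h : ℂ → ℝ} (hh : Sublin h) {r ρ C : ℝ} (hr : 0 < r)
    (hb : ∀ v, ‖v‖ = 1 → r ≤ h v ∧ h v ≤ ρ)
    (hsup : ∀ v, ∃ p, ip v p = h v ∧ ∀ w, ip w p ≤ h w) (hC : 0 < C)
    (a : Cir h) (hU : Ub C a.u a.β) {t : ℝ} (ht : 0 < t) {ω : Sp} (hω : Sublin (hs ω)) :
    GG a t ω ≤ C * (ρ / r + 1) ^ 2 * MM ω ^ 2 * t := by
  have hs0 : 0 ≤ Real.sqrt t := Real.sqrt_nonneg t
  have h0 := p1_mom.2.1
  have h1 := point1 a.cp.unit hC hU hh (k := fun v => Real.sqrt t * hs ω v)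
    (sublin_smul hω hs0) (fun v => mul_nonneg hs0 (h0 v ω)) (M := Real.sqrt t * MM ω) hr hb
    (fun v => by
      have h2 := mul_le_mul_of_nonneg_left (sub_bound hω (fun v => h0 v ω) v) hs0
      rw [mul_assoc]
      exact h2) hsup
  rw [GG_eq]
  refine h1.trans (le_of_eq ?_)
  rw [mul_pow, Real.sq_sqrt ht.le]
  ring

/-- bound in terms of the deficit -/
theorem GG_le2 {h : ℂ → ℝ} (hh : Sublin h) {r ρ C : ℝ} (hr : 0 < r)
    (hb : ∀ v, ‖v‖ = 1 → r ≤ h v ∧ h v ≤ ρ)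
    (a : Cir h) (hU : Ub C a.u a.β) {t : ℝ} (ht : 0 < t) {ω : Sp} (hω : Sublin (hs ω))
    {d : ℝ} (hd : 0 ≤ d) (hE : ∀ v ∈ SS h, ∃ x, Er (fun u => (Real.sqrt t)⁻¹ * h u) (hs ω) x ∧
      (Real.sqrt t)⁻¹ * h v - hs ω v - d ≤ ip v x) :
    GG a t ω ≤ C * MM ω * d * t := by
  have hs0 : 0 < Real.sqrt t := Real.sqrt_pos.mpr ht
  have h0 := p1_mom.2.1
  obtain ⟨-, -, h3⟩ := hU h (fun v => Real.sqrt t * hs ω v) hh (sublin_smul hω hs0.le) r ρ
    (Real.sqrt t * MM ω) hr (fun v hv => by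
      refine ⟨(hb v hv).1, (hb v hv).2, ?_⟩
      rw [abs_of_nonneg (mul_nonneg hs0.le (h0 v ω))]
      have h2 := mul_le_mul_of_nonneg_left (sub_bound hω (fun v => h0 v ω) v) hs0.le
      rw [hv, mul_one] at h2
      exact h2)
  have h4 := h3 (Real.sqrt t * d) (by positivity) (fun i => by
    obtain ⟨x, hx1, hx2⟩ := hE (a.u i) (a.mem i)
    refine ⟨(Real.sqrt t : ℂ) * x, fun w => ?_, ?_⟩
    · rw [H76.ip_smul_right]
      have h5 := mul_le_mul_of_nonneg_left (hx1 w) hs0.le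
      have h6 : Real.sqrt t * ((Real.sqrt t)⁻¹ * h w - hs ω w) = h w - Real.sqrt t * hs ω w := by
        field_simp
      linarith
    · rw [H76.ip_smul_right]
      have h5 := mul_le_mul_of_nonneg_left hx2 hs0.le
      have h6 : Real.sqrt t * ((Real.sqrt t)⁻¹ * h (a.u i) - hs ω (a.u i) - d)
          = h (a.u i) - Real.sqrt t * hs ω (a.u i) - Real.sqrt t * d := by
        field_simp
      linarith)
  rw [GG_eq]
  refine h4.trans (le_of_eq ?_)
  have h7 : Real.sqrt t * Real.sqrt t = t := Real.mul_self_sqrt ht.le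
  calc C * (Real.sqrt t * MM ω) * (Real.sqrt t * d)
      = C * MM ω * d * (Real.sqrt t * Real.sqrt t) := by ring
    _ = C * MM ω * d * t := by rw [h7]

/-- module UPP -/
theorem upp (hSfb : SfbStatement) (hUpb : UpbStatement) (hDef : DefStatement) : UppStatement := by
  intro h hSF B hB
  obtain ⟨-, -, -, ⟨r, ρ, hr, hb⟩, -⟩ := hSfb.2.2.1 h hSF
  have hh : Sublin h := hSF.sub
  have hsup := hSfb.2.1 h hh
  obtain ⟨C, hC, hUb⟩ := ub_of hUpb hB
  have hUa : ∀ a : Cir h, a.Sm B → Ub C a.u a.β := fun a ha => hUb _ _ _ a.cp.toNm ha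
  set K : ℝ := C * (ρ / r + 1) ^ 2 with hK
  have hK0 : 0 ≤ K := by positivity
  have iM : Integrable (fun ω => K * MM ω ^ 2) PP := ((am_MM.pow 2).integrable).const_mul K
  have hlaw := H13.law2
  constructor
  · refine ⟨max (C * ρ) (∫ ω, K * MM ω ^ 2 ∂PP), fun a ha => ⟨?_, fun t ht => ?_⟩⟩
    · have h0 : Sublin (fun _ : ℂ => (0 : ℝ)) := ⟨fun a b => by simp, fun c a _ => by simp⟩
      obtain ⟨h1, -, -⟩ := hUa a ha h (fun _ => 0) hh h0 r ρ 0 hr fun v hv =>
        ⟨(hb v hv).1, (hb v hv).2, by simp⟩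
      exact h1.trans (le_max_left _ _)
    · obtain ⟨iG, hR⟩ := GG_int a ht
      rw [hR]
      have h1 : ∫ ω, GG a t ω ∂PP ≤ ∫ ω, K * MM ω ^ 2 * t ∂PP := by
        refine integral_mono_ae iG (iM.mul_const t) ?_
        filter_upwards [hlaw.2.2.1] with ω hω
        exact GG_le hh hr hb hsup hC a (hUa a ha) ht hω
      rw [integral_mul_const] at h1
      refine h1.trans ?_
      exact mul_le_mul_of_nonneg_right (le_max_right _ _) ht.le
  · intro ε hε
    by_contra hcon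
    push Not at hcon
    have hcon' : ∀ j : ℕ, ∃ (a : Cir h) (t : ℝ), a.Sm B ∧ 0 < t ∧ t < 1 / ((j : ℝ) + 1) ∧
        ε * t < a.R t := by
      intro j
      obtain ⟨a, ha, t, h1, h2, h3⟩ := hcon (1 / ((j : ℝ) + 1)) (by positivity)
      exact ⟨a, t, ha, h1, h2, h3⟩
    choose a t ha ht htj hgt using hcon'
    have ht0 : Tendsto t atTop (𝓝 0) :=
      squeeze_zero (fun j => (ht j).le) (fun j => (htj j).le) tendsto_one_div_add_atTop_nhds_zero_nat
    set F : ℕ → Sp → ℝ := fun j ω => max ((t j)⁻¹ * GG (a j) (t j) ω) 0 with hF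
    have iF : ∀ j, Integrable (F j) PP := fun j =>
      (((GG_int (a j) (ht j)).1).const_mul _).sup (integrable_zero _ _ _)
    have hbound : ∀ j, ∀ᵐ ω ∂PP, ‖F j ω‖ ≤ K * MM ω ^ 2 := by
      intro j
      filter_upwards [hlaw.2.2.1] with ω hω
      rw [Real.norm_of_nonneg (le_max_right _ _)]
      refine max_le ?_ (by positivity)
      rw [inv_mul_le_iff₀ (ht j), mul_comm (t j)]
      exact GG_le hh hr hb hsup hC (a j) (hUa _ (ha j)) (ht j) hω
    have hlim : ∀ᵐ ω ∂PP, Tendsto (fun j => F j ω) atTop (𝓝 0) := by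
      filter_upwards [hlaw.2.2.1] with ω hω
      rw [Metric.tendsto_atTop']
      intro η hη
      have hMp := MM_nonneg ω
      set d : ℝ := η / (2 * (C * MM ω + 1)) with hd
      have hden : 0 < C * MM ω + 1 := by positivity
      have hd0 : 0 < d := by positivity
      obtain ⟨R0, hR0, hR⟩ := hDef h hSF (hs ω) hω d hd0
      have hev : ∀ᶠ j in atTop, R0 ≤ (Real.sqrt (t j))⁻¹ := by
        have h1 : ∀ᶠ j in atTop, t j < (R0⁻¹) ^ 2 := ht0.eventually_lt_const (by positivity)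
        filter_upwards [h1] with j hj
        have h2 : Real.sqrt (t j) < R0⁻¹ := (Real.sqrt_lt' (by positivity)).mpr hj
        have h3 := Real.sqrt_pos.mpr (ht j)
        rw [le_inv_comm₀ hR0 h3]
        exact h2.le
      obtain ⟨N, hN⟩ := (hev.and (eventually_ge_atTop 0)).exists_forall_of_atTop
      refine ⟨N, fun j hj => ?_⟩
      have h1 := GG_le2 hh hr hb (a j) (hUa _ (ha j)) (ht j) hω hd0.le
        (hR _ (hN j hj.le).1)
      rw [Real.dist_eq, sub_zero, abs_of_nonneg (le_max_right _ _)]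
      refine max_lt ?_ hη
      rw [inv_mul_lt_iff₀ (ht j), mul_comm (t j)]
      refine h1.trans_lt ?_
      refine mul_lt_mul_of_pos_right ?_ (ht j)
      have h2 : (C * MM ω + 1) * d = η / 2 := by
        rw [hd]
        field_simp
      nlinarith
    have hT := tendsto_integral_of_dominated_convergence (fun ω => K * MM ω ^ 2)
      (fun j => (iF j).1) iM hbound hlim
    rw [integral_zero] at hT
    have h1 := hT.eventually_lt_const hε
    obtain ⟨j, hj⟩ := h1.exists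
    obtain ⟨iG, hR⟩ := GG_int (a j) (ht j)
    have h2 : (t j)⁻¹ * (a j).R (t j) ≤ ∫ ω, F j ω ∂PP := by
      rw [hR, ← integral_const_mul]
      exact integral_mono (iG.const_mul _) (iF j) fun ω => le_max_left _ _
    have h3 : ε < (t j)⁻¹ * (a j).R (t j) := by
      rw [lt_inv_mul_iff₀ (ht j), mul_comm]
      exact hgt j
    linarith

end Pool.Agent.GB.H92
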